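import Pool.Agent.Lib.AS.Main
import Pool.Agent.Lib.NP.Prop

/-!
# The lower bound on average over convex families with few degenerate tuples

`FirstOrder w a` follows from the convexity of the form. The tuples with `d < r` distinct entries are assumed to
weigh at most `(log x)^(d - r - ε')` of the total; they are estimated by the upper bound sieve (`cnt_upper_all`).
-/

set_option autoImplicit false

open Finset Filter

namespace Pool.Agent.CF

open Pool.Agent.HL Pool.Agent.Lib.Sieve4 Pool.Agent.HLB Pool.Agent.HLD Pool.Agent.NP Pool.Agent.AS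

open scoped Classical in
/-- The degenerate tuples. -/
theorem degen_bound (r K0 : ℕ) (hr : 1 ≤ r) {ε ε' : ℝ} (hε : 0 < ε) (hε' : 0 < ε') :
    ∀ᶠ x : ℕ in atTop, ∀ (I ι : Type) [Fintype I] [Fintype ι] [DecidableEq ι] (w : I → ℝ)
      (a : I → ι → ℕ), Fintype.card ι = r → (∀ i, 0 ≤ w i) →
      (∀ i l, (a i l : ℝ) ≤ x * Real.log x ^ K0) →
      (∀ d : ℕ, d < r → (∑ i ∈ univ.filter (fun i => (univ.image (a i)).card = d), w i) *
        Real.log x ^ ((r : ℝ) - d + ε') ≤ ∑ i, w i) →
      ∑ i ∈ univ.filter (fun i => ¬ Function.Injective (a i)), w i * (cnt (a i) x : ℝ)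
        ≤ ε * ((x / Real.log x ^ r) * ∑ i, w i) := by
  obtain ⟨C, hC, hup⟩ := cnt_upper_all r K0 hr
  have hrR : (0:ℝ) < (r : ℝ) := by exact_mod_cast hr
  filter_upwards [hup, loglog_small r hε' (c := ε / (C * r)) (by positivity),
    eventually_ge_atTop 3] with x hx1 hx2 hx3
  intro I ι _ _ _ w a hcardι hw hax hnd
  have hx3R : (3:ℝ) ≤ x := by exact_mod_cast hx3
  have hxpos : (0:ℝ) < x := by linarith
  have hL1 : 1 < Real.log x := by
    rw [Real.lt_log_iff_exp_lt hxpos]
    have := Real.exp_one_lt_d9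
    linarith
  have hLpos : 0 < Real.log x := by linarith
  have hLL : 0 ≤ Real.log (Real.log x) := Real.log_nonneg hL1.le
  set W : ℝ := ∑ i, w i with hW
  have hW0 : 0 ≤ W := Finset.sum_nonneg fun i _ => hw i
  -- split by the number of distinct entries
  have h1 : ∑ i ∈ univ.filter (fun i => ¬ Function.Injective (a i)), w i * (cnt (a i) x : ℝ)
      ≤ ∑ d ∈ range r, ∑ i ∈ univ.filter (fun i => (univ.image (a i)).card = d),
          w i * (cnt (a i) x : ℝ) := by
    rw [← Finset.sum_biUnion]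
    · refine Finset.sum_le_sum_of_subset_of_nonneg ?_ fun i _ _ =>
        mul_nonneg (hw i) (Nat.cast_nonneg _)
      intro i hi
      rw [Finset.mem_filter] at hi
      rw [Finset.mem_biUnion]
      refine ⟨(univ.image (a i)).card, ?_, Finset.mem_filter.mpr ⟨mem_univ _, rfl⟩⟩
      rw [Finset.mem_range, ← hcardι]
      refine lt_of_le_of_ne (Finset.card_image_le.trans (le_of_eq Finset.card_univ)) fun h => hi.2 ?_
      rw [← Finset.card_univ] at h
      have h2 := Finset.card_image_iff.mp h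
      intro l l' hll
      exact h2 (Finset.mem_coe.mpr (mem_univ l)) (Finset.mem_coe.mpr (mem_univ l')) hll
    · intro d _ d' _ hdd
      rw [Function.onFun, Finset.disjoint_left]
      intro i hi hi'
      rw [Finset.mem_filter] at hi hi'
      exact hdd (hi.2.symm.trans hi'.2)
  have h2 : ∀ d ∈ range r, ∑ i ∈ univ.filter (fun i => (univ.image (a i)).card = d),
          w i * (cnt (a i) x : ℝ)
        ≤ C * Real.log (Real.log x) ^ r * Real.log x ^ (-ε') * ((x / Real.log x ^ r) * W) := by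
    intro d hd
    rw [Finset.mem_range] at hd
    have h3 : ∑ i ∈ univ.filter (fun i => (univ.image (a i)).card = d), w i * (cnt (a i) x : ℝ)
        ≤ ∑ i ∈ univ.filter (fun i => (univ.image (a i)).card = d),
            w i * (C * Real.log (Real.log x) ^ r * (x / Real.log x ^ d)) := by
      refine Finset.sum_le_sum fun i hi => mul_le_mul_of_nonneg_left ?_ (hw i)
      have h4 := hx1 ι (a i) hcardι (hax i)
      rw [(Finset.mem_filter.mp hi).2] at h4
      exact h4
    refine h3.trans ?_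
    rw [← Finset.sum_mul]
    have h5 : ∑ i ∈ univ.filter (fun i => (univ.image (a i)).card = d), w i
        ≤ W * Real.log x ^ (-((r : ℝ) - d + ε')) := by
      rw [Real.rpow_neg hLpos.le, ← div_eq_mul_inv, le_div_iff₀ (by positivity)]
      exact hnd d hd
    have h6 : (0:ℝ) ≤ C * Real.log (Real.log x) ^ r * (x / Real.log x ^ d) := by positivity
    refine (mul_le_mul_of_nonneg_right h5 h6).trans (le_of_eq ?_)
    have h7 : Real.log x ^ (-((r : ℝ) - d + ε')) = Real.log x ^ d * Real.log x ^ (-ε')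
        * (Real.log x ^ r)⁻¹ := by
      have e : -((r : ℝ) - d + ε') = (d : ℝ) + (-ε') + (-(r : ℝ)) := by ring
      rw [e, Real.rpow_add hLpos, Real.rpow_add hLpos, Real.rpow_neg hLpos.le (r : ℝ),
        Real.rpow_natCast, Real.rpow_natCast]
    rw [h7]
    have h8 : Real.log x ^ d ≠ 0 := (pow_pos hLpos d).ne'
    field_simp
  refine h1.trans ((Finset.sum_le_sum h2).trans ?_)
  rw [Finset.sum_const, Finset.card_range, nsmul_eq_mul]
  have h9 : (0:ℝ) ≤ (x / Real.log x ^ r) * W := by positivity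
  have h10 : (r : ℝ) * (C * Real.log (Real.log x) ^ r * Real.log x ^ (-ε')) ≤ ε := by
    have h11 : Real.log x ^ ε' * Real.log x ^ (-ε') = 1 := by
      rw [← Real.rpow_add hLpos, add_neg_cancel, Real.rpow_zero]
    have h12 : 0 < Real.log x ^ (-ε') := Real.rpow_pos_of_pos hLpos _
    calc (r : ℝ) * (C * Real.log (Real.log x) ^ r * Real.log x ^ (-ε'))
        ≤ (r : ℝ) * (C * (ε / (C * r) * Real.log x ^ ε') * Real.log x ^ (-ε')) := by gcongr
      _ = ε * (Real.log x ^ ε' * Real.log x ^ (-ε')) := by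
          field_simp
      _ = ε := by rw [h11, mul_one]
  calc (r : ℝ) * (C * Real.log (Real.log x) ^ r * Real.log x ^ (-ε') * ((x / Real.log x ^ r) * W))
      = ((r : ℝ) * (C * Real.log (Real.log x) ^ r * Real.log x ^ (-ε'))) *
          ((x / Real.log x ^ r) * W) := by ring
    _ ≤ ε * ((x / Real.log x ^ r) * W) := mul_le_mul_of_nonneg_right h10 h9

open scoped Classical in
theorem conv_lower (hSW : SW) (r K0 : ℕ) (hr : 1 ≤ r) {ε ε' : ℝ} (hε : 0 < ε) (hε' : 0 < ε') :
    ∀ᶠ x : ℕ in atTop, ∀ (I ι : Type) [Fintype I] [Fintype ι] [DecidableEq ι] (w : I → ℝ)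
      (a : I → ι → ℕ), Fintype.card ι = r → (∀ i, 0 ≤ w i) →
      (∀ i l, (a i l : ℝ) ≤ x * Real.log x ^ K0) → FirstOrder w a →
      (∀ d : ℕ, d < r → (∑ i ∈ univ.filter (fun i => (univ.image (a i)).card = d), w i) *
        Real.log x ^ ((r : ℝ) - d + ε') ≤ ∑ i, w i) →
      (1 - ε) * ((x / Real.log x ^ r) *
          ∑ i ∈ univ.filter (fun i => Function.Injective (a i)), w i * SI (a i))
        ≤ ∑ i ∈ univ.filter (fun i => Function.Injective (a i)), w i * (cnt (a i) x : ℝ) ∧
      (1 - ε) * ((x / Real.log x ^ r) * ∑ i, w i)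
        ≤ ∑ i ∈ univ.filter (fun i => Function.Injective (a i)), w i * (cnt (a i) x : ℝ) := by
  filter_upwards [family_lower_aux hSW r K0 hr (ε := ε / 4) (by positivity),
    sing_tail3 r r K0 hr (ε := ε / 4) (by positivity),
    degen_bound r K0 hr (ε := ε / 4) (by positivity) hε', eventually_ge_atTop 3]
    with x hx1 hx2 hx3 hx4
  intro I ι _ _ _ w a hcardι hw hax hfo hnd
  have hx3R : (3:ℝ) ≤ x := by exact_mod_cast hx4
  have hxpos : (0:ℝ) < x := by linarith
  have hLpos : 0 < Real.log x := Real.log_pos (by linarith)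
  have h1 := hx1 I ι w a hcardι hw hax hfo
  have hpd := family_posdef w a hfo (zz r x)
  have hdeg := hx3 I ι w a hcardι hw hax hnd
  set z := zz r x with hz
  set X : ℝ := x / Real.log x ^ r with hX
  have hXpos : 0 < X := by positivity
  set G : ℝ := ∑ i, w i * SZ z (a i) with hG
  set W : ℝ := ∑ i, w i with hW
  have hW0 : 0 ≤ W := Finset.sum_nonneg fun i _ => hw i
  have hG0 : 0 ≤ G := hW0.trans hpd
  have hXW : X * W ≤ X * G := mul_le_mul_of_nonneg_left hpd hXpos.le
  have hsplit : ∑ i, w i * (cnt (a i) x : ℝ)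
      = ∑ i ∈ univ.filter (fun i => Function.Injective (a i)), w i * (cnt (a i) x : ℝ)
        + ∑ i ∈ univ.filter (fun i => ¬ Function.Injective (a i)), w i * (cnt (a i) x : ℝ) := by
    rw [Finset.sum_filter_add_sum_filter_not]
  have hI0 : 0 ≤ ∑ i ∈ univ.filter (fun i => Function.Injective (a i)), w i * (cnt (a i) x : ℝ) :=
    Finset.sum_nonneg fun i _ => mul_nonneg (hw i) (Nat.cast_nonneg _)
  have hinjG : ∑ i ∈ univ.filter (fun i => Function.Injective (a i)), w i * SI (a i)
      ≤ (1 + ε / 4) * G := by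
    have h3 : ∑ i ∈ univ.filter (fun i => Function.Injective (a i)), w i * SI (a i)
        ≤ ∑ i ∈ univ.filter (fun i => Function.Injective (a i)), w i * ((1 + ε / 4) * SZ z (a i)) := by
      refine Finset.sum_le_sum fun i hi => mul_le_mul_of_nonneg_left ?_ (hw i)
      exact hx2 ι (a i) hcardι (Finset.mem_filter.mp hi).2 (hax i)
    refine h3.trans ?_
    have h4 : ∑ i ∈ univ.filter (fun i => Function.Injective (a i)), w i * ((1 + ε / 4) * SZ z (a i))
        = (1 + ε / 4) * ∑ i ∈ univ.filter (fun i => Function.Injective (a i)), w i * SZ z (a i) := by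
      rw [Finset.mul_sum]
      exact Finset.sum_congr rfl fun i _ => by ring
    rw [h4]
    refine mul_le_mul_of_nonneg_left ?_ (by positivity)
    exact Finset.sum_le_sum_of_subset_of_nonneg (Finset.filter_subset _ _)
      fun i _ _ => mul_nonneg (hw i) (SZ_nonneg _ _)
  rcases le_or_gt (1 - ε) 0 with hneg | hpos
  · constructor
    · refine le_trans (mul_nonpos_of_nonpos_of_nonneg hneg (mul_nonneg hXpos.le ?_)) hI0
      exact Finset.sum_nonneg fun i hi =>
        mul_nonneg (hw i) (SI_nonneg _ (Finset.mem_filter.mp hi).2)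
    · exact le_trans (mul_nonpos_of_nonpos_of_nonneg hneg (by positivity)) hI0
  · have hXG : 0 ≤ X * G := by positivity
    have hmain : (1 - ε / 2) * (X * G)
        ≤ ∑ i ∈ univ.filter (fun i => Function.Injective (a i)), w i * (cnt (a i) x : ℝ) := by
      have h5 : ε / 4 * (X * W) ≤ ε / 4 * (X * G) := mul_le_mul_of_nonneg_left hXW (by positivity)
      have e : (1 - ε / 2) * (X * G) = (1 - ε / 4) * (X * G) - ε / 4 * (X * G) := by ring
      rw [e]
      linarith
    constructor
    · calc (1 - ε) * (X * ∑ i ∈ univ.filter (fun i => Function.Injective (a i)), w i * SI (a i))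
          ≤ (1 - ε) * (X * ((1 + ε / 4) * G)) := by gcongr
        _ = ((1 - ε) * (1 + ε / 4)) * (X * G) := by ring
        _ ≤ (1 - ε / 2) * (X * G) := by
            refine mul_le_mul_of_nonneg_right ?_ hXG
            nlinarith
        _ ≤ _ := hmain
    · calc (1 - ε) * (X * W) ≤ (1 - ε) * (X * G) := by gcongr
        _ ≤ (1 - ε / 2) * (X * G) := mul_le_mul_of_nonneg_right (by linarith) hXG
        _ ≤ _ := hmain

/-- Positive proportion from the lower bounds on average. -/
theorem share (r : ℕ) (hr1 : 1 ≤ r) {ρ : ℝ} (hρ0 : 0 < ρ) (hρ : ρ < 1) :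
    ∃ δ : ℝ, 0 < δ ∧ ∀ᶠ x : ℕ in atTop, ∀ (I ι : Type) [Fintype I] [Fintype ι] [DecidableEq ι]
      (w : I → ℝ) (a : I → ι → ℕ) (B : Finset I), Fintype.card ι = r → (∀ i, 0 ≤ w i) →
      (∀ i, i ∈ B ↔ Function.Injective (a i)) →
      (1 - (1 - ρ) / 4) * ((x / Real.log x ^ r) * ∑ i ∈ B, w i * SI (a i))
        ≤ ∑ i ∈ B, w i * (cnt (a i) x : ℝ) →
      (1 - (1 - ρ) / 4) * ((x / Real.log x ^ r) * ∑ i, w i)
        ≤ ∑ i ∈ B, w i * (cnt (a i) x : ℝ) →
      ∃ G : Finset I, (∀ i ∈ G, Function.Injective (a i) ∧ (∀ p : ℕ, p.Prime → nuI (a i) p < p) ∧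
          ρ * SI (a i) * (x / Real.log x ^ r) ≤ cnt (a i) x) ∧
        δ * ∑ i ∈ B, w i * SI (a i) ≤ ∑ i ∈ G, w i * SI (a i) ∧
        δ * ∑ i, w i ≤ ∑ i ∈ G, w i * SI (a i) := by
  classical
  obtain ⟨K, hK, hKup⟩ := tuple_upperI r hr1
  have hρ' : 0 < 1 - ρ := by linarith
  have hrR : (1:ℝ) ≤ (r : ℝ) := by exact_mod_cast hr1
  refine ⟨(1 - ρ) / (4 * K) / max 1 (4 * (K + ρ)), by positivity, ?_⟩
  filter_upwards [(tendsto_x_div_log_pow r).eventually_ge_atTop (8 * r / (1 - ρ)),
    (tendsto_x_div_log_pow r).eventually_ge_atTop (4 * r), eventually_ge_atTop 3]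
    with x hx2 hx2' hx3
  intro I ι _ _ _ w a B hcardI hw hB h1 h2
  have hx3R : (3:ℝ) ≤ x := by exact_mod_cast hx3
  have hlog : 0 < Real.log x := Real.log_pos (by linarith)
  have hxpos : (0:ℝ) < x := by linarith
  set Wt : ℝ := ∑ i, w i with hWt
  have hWt0 : 0 ≤ Wt := Finset.sum_nonneg fun i _ => hw i
  rcases hWt0.eq_or_lt with hW0 | hWpos
  · have hz : ∀ i, w i = 0 := fun i =>
      (Finset.sum_eq_zero_iff_of_nonneg fun i _ => hw i).mp (hWt ▸ hW0.symm) i (mem_univ i)
    refine ⟨∅, fun t ht => absurd ht (Finset.notMem_empty t), ?_, ?_⟩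
    · rw [Finset.sum_empty, Finset.sum_eq_zero fun t _ => by rw [hz t, zero_mul], mul_zero]
    · rw [← hW0, mul_zero, Finset.sum_empty]
  set J := B.filter (fun i => 0 < w i) with hJ
  have hJI : ∀ f : I → ℝ, ∑ i ∈ B, w i * f i = ∑ i ∈ J, w i * f i := by
    intro f
    refine (Finset.sum_subset (Finset.filter_subset _ _) fun t ht1 ht2 => ?_).symm
    rw [mem_filter, not_and] at ht2
    have h3 : w t = 0 := le_antisymm (not_lt.mp (ht2 ht1)) (hw t)
    rw [h3, zero_mul]
  have hmemJ : ∀ i ∈ J, Function.Injective (a i) ∧ 0 < w i := fun i hi =>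
    ⟨(hB i).mp (mem_filter.mp hi).1, (mem_filter.mp hi).2⟩
  rw [hJI (fun i => SI (a i)), hJI (fun i => (cnt (a i) x : ℝ))] at h1
  rw [hJI (fun i => (cnt (a i) x : ℝ))] at h2
  obtain ⟨G, hG, hGa, hG1, hG2⟩ := prop_genericW J
    (fun i => w i * SI (a i)) (fun i => w i * (cnt (a i) x : ℝ)) w
    (fun i => ∀ p : ℕ, p.Prime → nuI (a i) p < p) (K := K) (ρ := ρ)
    (X := x / Real.log x ^ r) (N := Wt) (r := (r : ℝ)) hK hρ0 hρ
    (by positivity) hWpos (by positivity)
    (fun i hi => mul_nonneg (hw i) (SI_nonneg _ (hmemJ i hi).1)) (fun i _ => hw i)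
    (fun i hi hadm => by
      have h4 := hKup _ (a i) hcardI (hmemJ i hi).1 hadm x (by omega)
      have h5 := mul_le_mul_of_nonneg_left h4 (hw i)
      refine h5.trans (le_of_eq ?_)
      ring)
    (fun i hi hadm => by
      push Not at hadm
      obtain ⟨p, hp, hnp⟩ := hadm
      have h8 := count_inadm (a i) hp hnp x
      rw [hcardI] at h8
      rw [mul_comm]
      refine mul_le_mul_of_nonneg_right ?_ (hw i)
      exact_mod_cast h8)
    h1 h2 (Finset.sum_le_sum_of_subset_of_nonneg (Finset.subset_univ _) fun i _ _ => hw i) hx2 hx2'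
  refine ⟨G, fun i hi => ?_, ?_, ?_⟩
  · obtain ⟨hadm, h6⟩ := hGa i hi
    refine ⟨(hmemJ i (hG hi)).1, hadm, ?_⟩
    have h7 := (hmemJ i (hG hi)).2
    have h8 : w i * (ρ * SI (a i) * (x / Real.log x ^ r)) ≤ w i * (cnt (a i) x : ℝ) :=
      le_trans (le_of_eq (by ring)) h6
    exact le_of_mul_le_mul_left h8 h7
  · rw [hJI]
    refine le_trans ?_ hG1
    refine mul_le_mul_of_nonneg_right ?_
      (Finset.sum_nonneg fun i hi => mul_nonneg (hw i) (SI_nonneg _ (hmemJ i hi).1))
    exact div_le_self (by positivity) (le_max_left _ _)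
  · refine le_trans ?_ hG1
    rw [div_mul_eq_mul_div, div_le_iff₀ (by positivity)]
    have hS0 : 0 ≤ ∑ i ∈ J, w i * SI (a i) :=
      Finset.sum_nonneg fun i hi => mul_nonneg (hw i) (SI_nonneg _ (hmemJ i hi).1)
    calc (1 - ρ) / (4 * K) * Wt
        ≤ (1 - ρ) / (4 * K) * (4 * (K + ρ) * ∑ i ∈ J, w i * SI (a i)) := by gcongr
      _ ≤ (1 - ρ) / (4 * K) * (max 1 (4 * (K + ρ)) * ∑ i ∈ J, w i * SI (a i)) := by
          gcongr
          exact le_max_right _ _
      _ = _ := by ring

end Pool.Agent.CF
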